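import Mathlib
import Pool.Agent.H753R2.FR.T_E1
import Pool.Agent.H753R2.FR.T_D6b

set_option autoImplicit false

/-! The circuit inequality for the normalised flow polynomial. -/

namespace Pool.Agent.TH325.FR

open Finset Pool.Agent.H753R2.FR

section
variable {V I : Type} [DecidableEq V] [DecidableEq I] [Fintype V] [Fintype I] (G : MG V I)

/-- every edge of `C` is a loop after contracting `r` and the other edges of `C` -/
def Circ (r : Setoid V) (C : Finset I) : Prop :=
  ∀ e ∈ C, (r ⊔ conn G (C.erase e)) (G.x e) (G.y e)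

/-- deletion of the edges of a set `C` costs at most the factor `(1+p)` for each edge -/
theorem le_contract {q : ℝ} (hq : 1 < q) (C : Finset I) :
    ∀ (r : Setoid V) (S : Finset I), Disjoint C S →
      (∀ r' S', r ≤ r' → S' ⊆ C ∪ S → 0 ≤ m G q r' S') →
      m G q r (C ∪ S) ≤ (1 + 1 / (q - 1)) ^ C.card * m G q (r ⊔ conn G C) S := by
  have hp : 0 < 1 / (q - 1) := by
    have : 0 < q - 1 := by linarith
    positivity
  induction C using Finset.induction_on with
  | empty =>
    intro r S _ _
    rw [empty_union, conn_empty, sup_bot_eq]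
    simp
  | insert e C he ih =>
    intro r S hd hn
    rw [disjoint_insert_left] at hd
    have heS : e ∉ C ∪ S := by
      rw [mem_union]; tauto
    rw [insert_union, m_insert G q heS, card_insert_of_notMem he]
    have h1 : 0 ≤ m G q r (C ∪ S) := hn r _ le_rfl (by rw [insert_union]; exact subset_insert _ _)
    have h2 := ih (r ⊔ pr (G.x e) (G.y e)) S hd.2 (fun r' S' hr hS =>
      hn r' S' (le_sup_left.trans hr) (hS.trans (by rw [insert_union]; exact subset_insert _ _)))
    have h3 : r ⊔ pr (G.x e) (G.y e) ⊔ conn G C = r ⊔ conn G (insert e C) := by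
      rw [conn_insert, sup_assoc, sup_comm (pr (G.x e) (G.y e)) (conn G C)]
    rw [h3] at h2
    have h4 : 0 ≤ 1 / (q - 1) * m G q r (C ∪ S) := mul_nonneg hp.le h1
    calc (1 + 1 / (q - 1)) * m G q (r ⊔ pr (G.x e) (G.y e)) (C ∪ S) - 1 / (q - 1) * m G q r (C ∪ S)
        ≤ (1 + 1 / (q - 1)) * m G q (r ⊔ pr (G.x e) (G.y e)) (C ∪ S) := by linarith
      _ ≤ (1 + 1 / (q - 1)) * ((1 + 1 / (q - 1)) ^ C.card * m G q (r ⊔ conn G (insert e C)) S) :=
          mul_le_mul_of_nonneg_left h2 (by linarith)
      _ = _ := by rw [pow_succ]; ring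

/-- the circuit inequality -/
theorem circ_lower {q : ℝ} (hq : 1 < q) (C : Finset I) (hC : C.Nonempty) :
    ∀ (r : Setoid V) (S : Finset I), Disjoint C S → Circ G r C →
      (∀ r' S', r ≤ r' → S' ⊂ C ∪ S → 0 ≤ m G q r' S') →
      (1 + 1 / (q - 1)) ^ (C.card - 1) * (1 - (C.card - 1 : ℝ) * (1 / (q - 1))) *
        m G q (r ⊔ conn G C) S ≤ m G q r (C ∪ S) := by
  have hp : 0 < 1 / (q - 1) := by
    have : 0 < q - 1 := by linarith
    positivity
  induction hC using Finset.Nonempty.cons_induction with
  | singleton e =>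
    intro r S hd hcirc _
    have h1 := hcirc e (mem_singleton_self e)
    rw [erase_singleton, conn_empty, sup_bot_eq] at h1
    have h2 : conn G {e} = pr (G.x e) (G.y e) := by
      have := conn_insert G e ∅
      rw [conn_empty, bot_sup_eq] at this
      simpa using this
    have h3 : r ⊔ conn G {e} = r := by
      rw [h2]; exact sup_eq_left.mpr (pr_le_iff.mpr h1)
    rw [h3, union_comm, m_loops G q r (S := {e}) (O := S) (by
      intro e' he'
      rw [mem_singleton] at he'
      rw [he']; exact h1)]
    simp
  | cons e C he hC ih =>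
    intro r S hd hcirc hn
    rw [cons_eq_insert] at *
    rw [disjoint_insert_left] at hd
    have heS : e ∉ C ∪ S := by
      rw [mem_union]; tauto
    have hss : C ∪ S ⊂ insert e C ∪ S := by
      rw [insert_union]; exact ssubset_insert heS
    have hcard : (insert e C).card = C.card + 1 := card_insert_of_notMem he
    have hCpos : 1 ≤ C.card := hC.card_pos
    -- upper bound for the deletion
    have hup := le_contract G hq C r S hd.2 (fun r' S' hr hS => hn r' S' hr (hS.trans_ssubset hss))
    have h1 : r ⊔ conn G C = r ⊔ conn G (insert e C) := by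
      have h2 := hcirc e (mem_insert_self e C)
      rw [erase_insert he] at h2
      rw [conn_insert, ← sup_assoc]
      exact (sup_eq_left.mpr (pr_le_iff.mpr h2)).symm
    rw [h1] at hup
    -- lower bound for the contraction
    have hlow := ih (r ⊔ pr (G.x e) (G.y e)) S hd.2 (by
      intro f hf
      have h2 := hcirc f (mem_insert_of_mem hf)
      have hfe : e ≠ f := fun h => he (h ▸ hf)
      rw [erase_insert_of_ne hfe, conn_insert] at h2
      have h3 : r ⊔ pr (G.x e) (G.y e) ⊔ conn G (C.erase f) =
          r ⊔ (conn G (C.erase f) ⊔ pr (G.x e) (G.y e)) := by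
        rw [sup_assoc, sup_comm (pr (G.x e) (G.y e))]
      rw [h3]; exact h2)
      (fun r' S' hr hS => hn r' S' (le_sup_left.trans hr) (hS.trans hss))
    have h3 : r ⊔ pr (G.x e) (G.y e) ⊔ conn G C = r ⊔ conn G (insert e C) := by
      rw [conn_insert, sup_assoc, sup_comm (pr (G.x e) (G.y e)) (conn G C)]
    rw [h3] at hlow
    rw [insert_union, m_insert G q heS, hcard]
    set p := 1 / (q - 1) with hpdef
    set T := m G q (r ⊔ conn G (insert e C)) S with hT
    have h4 : (1 + p) * ((1 + p) ^ (C.card - 1) * (1 - (C.card - 1 : ℝ) * p) * T) -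
        p * ((1 + p) ^ C.card * T) =
        (1 + p) ^ (C.card + 1 - 1) * (1 - ((C.card + 1 : ℕ) - 1 : ℝ) * p) * T := by
      have h5 : (1 + p) ^ C.card = (1 + p) ^ (C.card - 1) * (1 + p) := by
        rw [← pow_succ]; congr 1; omega
      rw [Nat.add_sub_cancel, h5]
      push_cast
      ring
    rw [← h4]
    have h6 := mul_le_mul_of_nonneg_left hlow (by linarith : (0 : ℝ) ≤ 1 + p)
    have h7 := mul_le_mul_of_nonneg_left hup hp.le
    linarith

end

end Pool.Agent.TH325.FR
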