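import Mathlib
import Pool.Agent.TH325.FR.Cyc

set_option autoImplicit false

/-! Short circuits in multigraphs of minimum degree three. -/

namespace Pool.Agent.TH325.FR

open Finset Pool.Agent.H753R2.FR

section
variable {V I : Type} [DecidableEq V] [DecidableEq I] [Fintype V] [Fintype I] (G : MG V I)

/-- some edge of `U` is spanned by the others -/
def Dep (U : Finset I) : Prop := ∃ e ∈ U, conn G (U.erase e) (G.x e) (G.y e)

/-- a dependent set contains a circuit -/
theorem exists_circ (U : Finset I) : Dep G U → ∃ C, C ⊆ U ∧ C.Nonempty ∧ Circ G ⊥ C := by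
  induction U using Finset.strongInductionOn with
  | _ U ih =>
    intro hU
    by_cases h : ∃ f ∈ U, Dep G (U.erase f)
    · obtain ⟨f, hf, hd⟩ := h
      obtain ⟨C, hC, hn, hc⟩ := ih (U.erase f) (erase_ssubset hf) hd
      exact ⟨C, hC.trans (erase_subset _ _), hn, hc⟩
    · push Not at h
      obtain ⟨e, he, hce⟩ := hU
      refine ⟨U, Subset.rfl, ⟨e, he⟩, ?_⟩
      intro f hf
      rw [bot_sup_eq]
      by_cases hfe : f = e
      · rw [hfe]; exact hce
      · have h1 : ¬ conn G ((U.erase f).erase e) (G.x e) (G.y e) := fun h2 =>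
          h f hf ⟨e, mem_erase.2 ⟨fun h3 => hfe h3.symm, he⟩, h2⟩
        have h2 : U.erase e = insert f ((U.erase f).erase e) := by
          rw [erase_right_comm, insert_erase (mem_erase.2 ⟨hfe, hf⟩)]
        have h3 : U.erase f = insert e ((U.erase f).erase e) := by
          rw [insert_erase (mem_erase.2 ⟨fun h3 => hfe h3.symm, he⟩)]
        rw [h2, conn_insert, sup_pr_iff] at hce
        rw [h3, conn_insert, sup_pr_iff]
        set W := conn G ((U.erase f).erase e)
        rcases hce with h4 | ⟨h4, h5⟩ | ⟨h4, h5⟩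
        · exact absurd h4 h1
        · exact Or.inr (Or.inl ⟨W.symm h4, W.symm h5⟩)
        · exact Or.inr (Or.inr ⟨h5, h4⟩)

/-- degree sum of a set of vertices -/
theorem deg_sum (B : Finset V) :
    ∑ u ∈ B, (cut G {u} {u}ᶜ).card ≤ (cut G B Bᶜ).card + 2 * (E G B).card := by
  have h1 : ∀ u ∈ B, (cut G {u} {u}ᶜ).card ≤
      ∑ e : I, ((if u = G.x e then 1 else 0) + (if u = G.y e then 1 else 0)) := by
    intro u _
    rw [card_eq_sum_ones, ← sum_filter_add_sum_filter_not (s := (univ : Finset I))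
      (p := fun e => e ∈ cut G {u} {u}ᶜ)]
    refine le_trans ?_ (Nat.le_add_right _ _)
    rw [filter_mem_eq_inter, univ_inter]
    refine sum_le_sum fun e he => ?_
    rw [cut, mem_filter] at he
    rcases he.2 with ⟨h2, _⟩ | ⟨_, h2⟩
    · rw [mem_singleton] at h2
      rw [if_pos h2.symm]; omega
    · rw [mem_singleton] at h2
      rw [if_pos (show u = G.y e from h2.symm)]; omega
  refine (sum_le_sum h1).trans ?_
  rw [sum_comm]
  have h2 : (cut G B Bᶜ).card + 2 * (E G B).card =
      ∑ e : I, ((if e ∈ cut G B Bᶜ then 1 else 0) + 2 * (if e ∈ E G B then 1 else 0)) := by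
    rw [sum_add_distrib, ← mul_sum]
    congr 1
    · rw [sum_boole]; simp
    · rw [sum_boole]; simp
  rw [h2]
  refine sum_le_sum fun e _ => ?_
  rw [sum_add_distrib, sum_ite_eq' B, sum_ite_eq' B]
  have hc : e ∈ cut G B Bᶜ ↔ (G.x e ∈ B ∧ G.y e ∉ B) ∨ (G.x e ∉ B ∧ G.y e ∈ B) := by
    simp [cut]
  have hE : e ∈ E G B ↔ (G.x e ∈ B ∧ G.y e ∈ B) := by
    simp [E]
  simp only [hc, hE]
  by_cases hx : G.x e ∈ B <;> by_cases hy : G.y e ∈ B <;> simp [hx, hy]

/-- growth of balls without short circuits; `R` is empty or the root edge -/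
theorem grow (hdeg : ∀ v, 3 ≤ (cut G {v} {v}ᶜ).card) (r : ℕ) (R : Finset I) (B₀ : Finset V)
    (c : ℕ) (v : V) (hv₀ : v ∈ B₀) (hR : R.card + 1 ≤ B₀.card)
    (hRB : ∀ e ∈ R, G.x e ∈ B₀ ∧ G.y e ∈ B₀) (hRc : ∀ u ∈ B₀, conn G R v u)
    (hc : c ≤ B₀.card + 2)
    (hno : ∀ U : Finset I, U.card ≤ 2 * r + R.card → ¬ Dep G U) (i : ℕ) (hi : i ≤ r) :
    ∃ (B : Finset V) (T : Finset I), v ∈ B ∧ R ⊆ T ∧ T.card + 1 ≤ B.card ∧
      (∀ e ∈ T, G.x e ∈ B ∧ G.y e ∈ B) ∧
      (∀ u ∈ B, ∃ P ⊆ T, P.card ≤ i ∧ conn G (R ∪ P) v u) ∧ c * 2 ^ i ≤ B.card + 2 := by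
  induction i with
  | zero =>
    refine ⟨B₀, R, hv₀, Subset.rfl, hR, hRB, ?_, by simpa using hc⟩
    intro u hu
    exact ⟨∅, empty_subset _, by simp, by rw [union_empty]; exact hRc u hu⟩
  | succ i ih =>
    obtain ⟨B, T, hv, hRT, hT, hTB, hP, hB⟩ := ih (by omega)
    -- edges inside `B` are in `T`
    have hE : E G B ⊆ T := by
      intro e he
      rw [E, mem_filter] at he
      by_contra heT
      obtain ⟨P, hPT, hPc, hPx⟩ := hP _ he.2.1
      obtain ⟨P', hPT', hPc', hPy⟩ := hP _ he.2.2
      refine hno (insert e (R ∪ (P ∪ P'))) ?_ ⟨e, mem_insert_self _ _, ?_⟩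
      · have h1 := card_insert_le e (R ∪ (P ∪ P'))
        have h2 := card_union_le P P'
        have h3 := card_union_le R (P ∪ P')
        omega
      · have h1 : e ∉ R ∪ (P ∪ P') :=
          fun h => heT ((union_subset hRT (union_subset hPT hPT')) h)
        rw [erase_insert h1]
        have h2 := conn_mono G (union_subset_union_right (s := R)
          (subset_union_left : P ⊆ P ∪ P'))
        have h3 := conn_mono G (union_subset_union_right (s := R)
          (subset_union_right : P' ⊆ P ∪ P'))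
        exact (conn G _).trans ((conn G _).symm (h2 hPx)) (h3 hPy)
    have hcount : B.card + 2 ≤ (cut G B Bᶜ).card := by
      have h1 := deg_sum G B
      have h2 : B.card * 3 ≤ ∑ u ∈ B, (cut G {u} {u}ᶜ).card := by
        rw [← smul_eq_mul, ← sum_const]
        exact sum_le_sum fun u _ => hdeg u
      have h3 := card_le_card hE
      omega
    -- outer and inner end
    set o : I → V := fun e => if G.x e ∈ B then G.y e else G.x e with ho
    set ii : I → V := fun e => if G.x e ∈ B then G.x e else G.y e with hii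
    have hio : ∀ e ∈ cut G B Bᶜ, ii e ∈ B ∧ o e ∉ B ∧
        (∀ A : Finset I, e ∈ A → conn G A (ii e) (o e)) ∧
        ((G.x e = ii e ∧ G.y e = o e) ∨ (G.x e = o e ∧ G.y e = ii e)) := by
      intro e he
      have hc : (G.x e ∈ B ∧ G.y e ∉ B) ∨ (G.x e ∉ B ∧ G.y e ∈ B) := by
        simpa [cut] using he
      have hA : ∀ A : Finset I, e ∈ A → conn G A (G.x e) (G.y e) := fun A hA =>
        (conn_le_iff G).1 le_rfl e hA
      rcases hc with ⟨h1, h2⟩ | ⟨h1, h2⟩
      · have e1 : ii e = G.x e := by simp only [hii, if_pos h1]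
        have e2 : o e = G.y e := by simp only [ho, if_pos h1]
        rw [e1, e2]
        exact ⟨h1, h2, hA, Or.inl ⟨rfl, rfl⟩⟩
      · have e1 : ii e = G.y e := by simp only [hii, if_neg h1]
        have e2 : o e = G.x e := by simp only [ho, if_neg h1]
        rw [e1, e2]
        exact ⟨h2, h1, fun A h => (conn G A).symm (hA A h), Or.inr ⟨rfl, rfl⟩⟩
    have hTc : ∀ e ∈ cut G B Bᶜ, e ∉ T := by
      intro e he heT
      obtain ⟨h1, h2, _, h3⟩ := hio e he
      obtain ⟨h4, h5⟩ := hTB e heT
      rcases h3 with ⟨h6, h7⟩ | ⟨h6, h7⟩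
      · rw [h7] at h5; exact h2 h5
      · rw [h6] at h4; exact h2 h4
    have hinj : Set.InjOn o (cut G B Bᶜ) := by
      intro e he e' he' heq
      by_contra hne
      have he0 : e ∈ cut G B Bᶜ := he
      have he0' : e' ∈ cut G B Bᶜ := he'
      obtain ⟨h1, h2, h3, h4⟩ := hio e he0
      obtain ⟨h1', h2', h3', h4'⟩ := hio e' he0'
      obtain ⟨P, hPT, hPc, hPx⟩ := hP _ h1
      obtain ⟨P', hPT', hPc', hPy⟩ := hP _ h1'
      refine hno (insert e (insert e' (R ∪ (P ∪ P')))) ?_ ⟨e, mem_insert_self _ _, ?_⟩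
      · have g1 := card_insert_le e (insert e' (R ∪ (P ∪ P')))
        have g2 := card_insert_le e' (R ∪ (P ∪ P'))
        have g3 := card_union_le P P'
        have g4 := card_union_le R (P ∪ P')
        omega
      · have g1 : e ∉ insert e' (R ∪ (P ∪ P')) := by
          rw [mem_insert]
          rintro (h | h)
          · exact hne h
          · exact hTc e he0 ((union_subset hRT (union_subset hPT hPT')) h)
        rw [erase_insert g1]
        set W := conn G (insert e' (R ∪ (P ∪ P'))) with hW
        have g2 : W v (ii e) := conn_mono G ((union_subset_union_right (s := R)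
          (subset_union_left : P ⊆ P ∪ P')).trans (subset_insert _ _)) hPx
        have g3 : W v (ii e') := conn_mono G ((union_subset_union_right (s := R)
          (subset_union_right : P' ⊆ P ∪ P')).trans (subset_insert _ _)) hPy
        have g4 : W (ii e') (o e') := h3' _ (mem_insert_self _ _)
        have g5 : W (ii e) (o e) := by
          rw [heq]
          exact W.trans (W.symm g2) (W.trans g3 g4)
        rcases h4 with ⟨h6, h7⟩ | ⟨h6, h7⟩
        · rw [h6, h7]; exact g5
        · rw [h6, h7]; exact W.symm g5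
    have hdis : Disjoint B ((cut G B Bᶜ).image o) := by
      rw [disjoint_right]
      intro w hw
      obtain ⟨e, he, rfl⟩ := mem_image.1 hw
      exact (hio e he).2.1
    refine ⟨B ∪ (cut G B Bᶜ).image o, T ∪ cut G B Bᶜ, mem_union_left _ hv,
      hRT.trans subset_union_left, ?_, ?_, ?_, ?_⟩
    · rw [card_union_of_disjoint hdis, card_image_of_injOn hinj]
      have := card_union_le T (cut G B Bᶜ)
      omega
    · intro e he
      rcases mem_union.1 he with h | h
      · exact ⟨mem_union_left _ (hTB e h).1, mem_union_left _ (hTB e h).2⟩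
      · obtain ⟨h1, h2, _, h3⟩ := hio e h
        have h5 : o e ∈ B ∪ (cut G B Bᶜ).image o := mem_union_right _ (mem_image_of_mem o h)
        have h6 : ii e ∈ B ∪ (cut G B Bᶜ).image o := mem_union_left _ h1
        rcases h3 with ⟨h7, h8⟩ | ⟨h7, h8⟩
        · rw [h7, h8]; exact ⟨h6, h5⟩
        · rw [h7, h8]; exact ⟨h5, h6⟩
    · intro u hu
      rcases mem_union.1 hu with h | h
      · obtain ⟨P, hPT, hPc, hPx⟩ := hP u h
        exact ⟨P, hPT.trans subset_union_left, by omega, hPx⟩
      · obtain ⟨e, he, rfl⟩ := mem_image.1 h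
        obtain ⟨h1, h2, h3, _⟩ := hio e he
        obtain ⟨P, hPT, hPc, hPx⟩ := hP _ h1
        refine ⟨insert e P, ?_, ?_, ?_⟩
        · rw [insert_subset_iff]
          exact ⟨mem_union_right _ he, hPT.trans subset_union_left⟩
        · have := card_insert_le e P
          omega
        · exact (conn G (R ∪ insert e P)).trans
            (conn_mono G (union_subset_union_right (subset_insert _ _)) hPx)
            (h3 _ (mem_union_right _ (mem_insert_self _ _)))
    · rw [card_union_of_disjoint hdis, card_image_of_injOn hinj, pow_succ]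
      have h2 : c * (2 ^ i * 2) = 2 * (c * 2 ^ i) := by ring
      omega

/-- a multigraph of minimum degree three with few vertices has a short circuit (even length) -/
theorem short_circ_even [Nonempty V] (hdeg : ∀ v, 3 ≤ (cut G {v} {v}ᶜ).card) (r : ℕ)
    (hn : Fintype.card V + 2 < 3 * 2 ^ r) :
    ∃ C : Finset I, C.Nonempty ∧ C.card ≤ 2 * r ∧ Circ G ⊥ C := by
  by_contra hcon
  push Not at hcon
  have hno : ∀ U : Finset I, U.card ≤ 2 * r + (∅ : Finset I).card → ¬ Dep G U := by
    intro U hU hd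
    obtain ⟨C, hC, hCn, hCc⟩ := exists_circ G U hd
    rw [card_empty, add_zero] at hU
    exact hcon C hCn ((card_le_card hC).trans hU) hCc
  obtain ⟨v⟩ := ‹Nonempty V›
  obtain ⟨B, T, _, _, _, _, _, hB⟩ := grow G hdeg r ∅ {v} 3 v (mem_singleton_self v) (by simp)
    (by simp) (by
      intro u hu
      rw [mem_singleton] at hu
      rw [hu]) (by simp) hno r le_rfl
  have := card_le_univ B
  omega

/-- the same, odd length -/
theorem short_circ_odd [Nonempty V] (hdeg : ∀ v, 3 ≤ (cut G {v} {v}ᶜ).card)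
    (hloop : ∀ e, G.x e ≠ G.y e) (r : ℕ) (hn : Fintype.card V + 2 < 4 * 2 ^ r) :
    ∃ C : Finset I, C.Nonempty ∧ C.card ≤ 2 * r + 1 ∧ Circ G ⊥ C := by
  by_contra hcon
  push Not at hcon
  obtain ⟨v⟩ := ‹Nonempty V›
  obtain ⟨e, he⟩ : (cut G {v} {v}ᶜ).Nonempty := by
    rw [← card_pos]; have := hdeg v; omega
  have hno : ∀ U : Finset I, U.card ≤ 2 * r + ({e} : Finset I).card → ¬ Dep G U := by
    intro U hU hd
    obtain ⟨C, hC, hCn, hCc⟩ := exists_circ G U hd
    rw [card_singleton] at hU
    exact hcon C hCn ((card_le_card hC).trans hU) hCc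
  have hcard : ({G.x e, G.y e} : Finset V).card = 2 := card_pair (hloop e)
  obtain ⟨B, T, _, _, _, _, _, hB⟩ := grow G hdeg r {e} {G.x e, G.y e} 4 (G.x e)
    (mem_insert_self _ _) (by rw [hcard, card_singleton]) (by
      intro f hf
      rw [mem_singleton] at hf
      rw [hf]
      exact ⟨mem_insert_self _ _, mem_insert_of_mem (mem_singleton_self _)⟩) (by
      intro u hu
      rw [mem_insert, mem_singleton] at hu
      rcases hu with h | h
      · rw [h]
      · rw [h]; exact (conn_le_iff G).1 le_rfl e (mem_singleton_self e)) (by rw [hcard]) hno r le_rfl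
  have := card_le_univ B
  omega

end

end Pool.Agent.TH325.FR
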