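import Mathlib
import Pool.Agent.TH325.FR.Moore

set_option autoImplicit false

/-! Real flow roots of a graph with `n` vertices are less than `2 log₂ (n/2 + 1)` (or at most `2`). -/

namespace Pool.Agent.TH325.FR

open Finset Pool.Agent.H753R2.FR

/-- a short circuit in a minimal counterexample is impossible -/
theorem no_short {V I : Type} [DecidableEq V] [DecidableEq I] [Fintype V] [Fintype I] (G : MG V I)
    {q : ℝ} (hq : 1 < q)
    (hnn : ∀ (r : Setoid V) (S : Finset I), (r ≠ ⊥ ∨ S ≠ univ) → 0 ≤ m G q r S)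
    (hpos : ∀ r : Setoid V, r ≠ ⊥ → 0 < m G q r univ) (hloop : ∀ e, G.x e ≠ G.y e)
    (C : Finset I) (hC : C.Nonempty) (hcirc : Circ G ⊥ C) (hCq : (C.card : ℝ) < q) :
    0 < m G q ⊥ univ := by
  have hu : C ∪ (univ \ C) = univ := Finset.union_sdiff_of_subset (subset_univ C)
  have h1 := circ_lower G hq C hC ⊥ (univ \ C) disjoint_sdiff hcirc (by
    intro r' S' _ hS
    rw [hu] at hS
    exact hnn r' S' (Or.inr (ssubset_univ_iff.1 hS)))
  rw [hu, bot_sup_eq] at h1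
  have hne : conn G C ≠ ⊥ := by
    intro h
    obtain ⟨e, he⟩ := hC
    have h2 : conn G C (G.x e) (G.y e) := (conn_le_iff G).1 le_rfl e he
    rw [h] at h2
    exact hloop e h2
  have h2 : m G q (conn G C) (univ \ C) = m G q (conn G C) univ := by
    have h3 := m_loops G q (conn G C) (S := C) (O := univ \ C) (fun e he =>
      (conn_le_iff G).1 le_rfl e he)
    rw [union_comm, hu] at h3
    exact h3.symm
  rw [h2] at h1
  have hT := hpos _ hne
  have hq1 : 0 < q - 1 := by linarith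
  have h3 : 0 < 1 - ((C.card : ℝ) - 1) * (1 / (q - 1)) := by
    rw [mul_one_div, sub_pos, div_lt_one hq1]; linarith
  have h4 : 0 < (1 + 1 / (q - 1)) ^ (C.card - 1) := by positivity
  exact lt_of_lt_of_le (mul_pos (mul_pos h4 h3) hT) h1

open E1 in
theorem flow_pos_moore (q : ℝ) (hq : 2 < q) (n k : ℕ) (G : MG (Fin n) (Fin k)) (hn : 0 < n)
    (hb : Bridgeless G) (hnq : ∃ r : ℕ, (2 * (r : ℝ) < q ∧ n + 2 < 3 * 2 ^ r) ∨
      (2 * (r : ℝ) + 1 < q ∧ n + 2 < 4 * 2 ^ r)) : 0 < m G q ⊥ univ := by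
  classical
  by_contra hneg
  push Not at hneg
  have h : ∃ (n k : ℕ) (G : MG (Fin n) (Fin k)), 0 < n ∧ Bridgeless G ∧ m G q ⊥ univ ≤ 0 :=
    ⟨n, k, G, hn, hb, hneg⟩
  have hle : Nat.find h ≤ n := Nat.find_min' h ⟨k, G, hn, hb, hneg⟩
  have hn1 := Nat.find_spec h
  obtain ⟨G', hn0, hbl, hG⟩ := Nat.find_spec hn1
  have hmin : Min q (Nat.find h) (Nat.find hn1) := by
    constructor
    · intro n' k' hlt G' h0 hb
      by_contra hcon
      exact Nat.find_min h hlt ⟨k', G', h0, hb, not_lt.1 hcon⟩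
    · intro k' hlt G' h0 hb
      by_contra hcon
      exact Nat.find_min hn1 hlt ⟨G', h0, hb, not_lt.1 hcon⟩
  have hq1 : 1 < q := by linarith
  have hdeg := deg_aux hmin hn0 hq G' hbl hG
  have hloop := loop_aux hmin hn0 G' hbl hG
  have : Nonempty (Fin (Nat.find h)) := ⟨⟨0, hn0⟩⟩
  -- a short circuit
  obtain ⟨C, hC, hCq, hcirc⟩ : ∃ C : Finset (Fin (Nat.find hn1)), C.Nonempty ∧
      (C.card : ℝ) < q ∧ Circ G' ⊥ C := by
    obtain ⟨r, ⟨hr, h1⟩ | ⟨hr, h1⟩⟩ := hnq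
    · obtain ⟨C, hC, hc, hcirc⟩ := short_circ_even G' hdeg r (by
        rw [Fintype.card_fin]; omega)
      refine ⟨C, hC, ?_, hcirc⟩
      have : (C.card : ℝ) ≤ 2 * (r : ℝ) := by exact_mod_cast hc
      linarith
    · obtain ⟨C, hC, hc, hcirc⟩ := short_circ_odd G' hdeg hloop r (by
        rw [Fintype.card_fin]; omega)
      refine ⟨C, hC, ?_, hcirc⟩
      have : (C.card : ℝ) ≤ 2 * (r : ℝ) + 1 := by exact_mod_cast hc
      linarith
  have hfin := no_short G' hq1 (nn_aux hmin hn0 hq1 G') (pos_aux hmin hn0 G' hbl) hloop C hC hcirc hCq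
  linarith

/-- the logarithmic condition implies the one with the exact Moore bounds -/
theorem moore_of_log {q : ℝ} (hq : 2 < q) {n : ℕ} (hN : (n : ℝ) + 2 < (2 : ℝ) ^ (q / 2 + 1)) :
    ∃ r : ℕ, (2 * (r : ℝ) < q ∧ n + 2 < 3 * 2 ^ r) ∨ (2 * (r : ℝ) + 1 < q ∧ n + 2 < 4 * 2 ^ r) := by
  obtain ⟨l, hl1, hl2⟩ : ∃ l : ℕ, (l : ℝ) < q ∧ q ≤ l + 1 := by
    refine ⟨⌈q⌉₊ - 1, ?_, ?_⟩
    · have h1 : 1 ≤ ⌈q⌉₊ := Nat.one_le_ceil_iff.2 (by linarith)
      have h2 := Nat.ceil_lt_add_one (show 0 ≤ q by linarith)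
      push_cast [Nat.cast_sub h1]
      linarith
    · have h1 : 1 ≤ ⌈q⌉₊ := Nat.one_le_ceil_iff.2 (by linarith)
      have h2 := Nat.le_ceil q
      push_cast [Nat.cast_sub h1]
      linarith
  rcases Nat.even_or_odd' l with ⟨r, hr | hr⟩
  · refine ⟨r, Or.inl ⟨?_, ?_⟩⟩
    · rw [hr] at hl1
      push_cast at hl1
      exact hl1
    have h2 : (2 : ℝ) ^ (q / 2 + 1) ≤ (2 : ℝ) ^ ((r : ℝ) + 3 / 2) := by
      apply Real.rpow_le_rpow_of_exponent_le (by norm_num)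
      rw [hr] at hl2
      push_cast at hl2
      linarith
    have h3 : (2 : ℝ) ^ ((r : ℝ) + 3 / 2) < 3 * 2 ^ r := by
      rw [Real.rpow_add (by norm_num), Real.rpow_natCast]
      have h4 : (2 : ℝ) ^ ((3 : ℝ) / 2) < 3 := by
        have h5 : ((2 : ℝ) ^ ((3 : ℝ) / 2)) ^ 2 = 8 := by
          rw [← Real.rpow_natCast, ← Real.rpow_mul (by norm_num)]
          norm_num
        have h6 : (0 : ℝ) ≤ (2 : ℝ) ^ ((3 : ℝ) / 2) := by positivity
        nlinarith
      have h5 : (0 : ℝ) < 2 ^ r := by positivity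
      nlinarith
    have h4 : ((n + 2 : ℕ) : ℝ) < ((3 * 2 ^ r : ℕ) : ℝ) := by
      push_cast
      linarith
    exact_mod_cast h4
  · refine ⟨r, Or.inr ⟨?_, ?_⟩⟩
    · rw [hr] at hl1
      push_cast at hl1
      exact hl1
    have h2 : (2 : ℝ) ^ (q / 2 + 1) ≤ (2 : ℝ) ^ ((r : ℝ) + 2) := by
      apply Real.rpow_le_rpow_of_exponent_le (by norm_num)
      rw [hr] at hl2
      push_cast at hl2
      linarith
    have h3 : (2 : ℝ) ^ ((r : ℝ) + 2) = 4 * 2 ^ r := by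
      rw [Real.rpow_add (by norm_num), Real.rpow_natCast]
      norm_num
      ring
    have h4 : ((n + 2 : ℕ) : ℝ) < ((4 * 2 ^ r : ℕ) : ℝ) := by
      push_cast
      linarith
    exact_mod_cast h4

end Pool.Agent.TH325.FR
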